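import Pool.Agent.R331.MT.Two

set_option autoImplicit false

/-!
The content theorem: a one-dimensional mass transference principle (for contents).
-/

namespace Pool.Agent.R331.MT

open MeasureTheory Filter Topology Set
open scoped ENNReal

theorem full_of_ae {s t : ℝ} (hs : 0 < s) (hst : s < t) (ht : t ≤ 1)
    (C : ℕ → Set ℝ) (ρ : ℕ → ℝ) (hρ : ∀ k, 0 < ρ k) (hρ0 : Tendsto ρ atTop (𝓝 0))
    (hfull : ∀ᵐ x ∂(volume : Measure ℝ), x ∈ Ioo 0 1 → ∃ᶠ k in atTop, ∃ c ∈ C k, |x - c| < ρ k) (n : ℕ) :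
    Full s {y | ∃ k, n ≤ k ∧ ∃ c ∈ C k, |y - c| < ρ k ^ (1/t)} := by
  intro L hL T hT
  have hlen : ∀ p : ℕ × ℕ, ((p.2:ℝ)+1) / 2^p.1 - (p.2:ℝ) / 2^p.1 = 1 / 2^p.1 := by
    intro p
    field_simp
    ring
  have hlt : ∀ p : ℕ × ℕ, (p.2:ℝ) / 2^p.1 < ((p.2:ℝ)+1) / 2^p.1 := by
    intro p
    apply div_lt_div_of_pos_right _ (by positivity)
    linarith
  have h := lemma1 (ι := T) hs hst ht C ρ hρ hρ0 (hlt L) (by
      filter_upwards [hfull] with x hx hxL
      apply hx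
      have h1 := hL (⟨hxL.1.le, hxL.2⟩ : x ∈ D L)
      refine ⟨lt_of_le_of_lt ?_ hxL.1, h1.2⟩
      positivity) n
    (fun j => (j.1.2:ℝ) / 2^j.1.1) (fun j => ((j.1.2:ℝ)+1) / 2^j.1.1) (fun j => (hlt j.1).le) (by
      intro y hy hyU
      obtain ⟨p, hp1, hp2⟩ := hT y ⟨hy.1.le, hy.2⟩ hyU
      exact ⟨⟨p, hp1⟩, hp2⟩)
  rw [hlen] at h
  refine h.trans (le_of_eq ?_)
  unfold W
  rw [← tsum_subtype]
  apply tsum_congr
  intro j
  show ENNReal.ofReal (((j.1.2:ℝ)+1) / 2^j.1.1 - (j.1.2:ℝ) / 2^j.1.1) ^ s = wt s j.1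
  rw [hlen]
  rfl

/-- a few dyadic intervals near `z` -/
def Tn (n : ℕ) (z : ℝ) : Set (ℕ × ℕ) := {p | p.1 = n ∧ idx n z ≤ p.2 + 2 ∧ p.2 ≤ idx n z + 2}

theorem W_Tn (s : ℝ) (n : ℕ) (z : ℝ) : W s (Tn n z) ≤ 5 * ENNReal.ofReal (1/2^n) ^ s := by
  classical
  unfold W
  have h1 : ∀ p, p ∉ (({n} : Finset ℕ) ×ˢ (Finset.Icc (idx n z - 2) (idx n z + 2))) → (Tn n z).indicator (wt s) p = 0 := by
    intro p hp
    rw [Set.indicator_of_notMem]
    rintro ⟨a1, a2, a3⟩
    apply hp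
    rw [Finset.mem_product, Finset.mem_singleton, Finset.mem_Icc]
    exact ⟨a1, by omega, a3⟩
  rw [tsum_eq_sum h1]
  have h2 : ∀ p ∈ (({n} : Finset ℕ) ×ˢ (Finset.Icc (idx n z - 2) (idx n z + 2))),
      (Tn n z).indicator (wt s) p ≤ ENNReal.ofReal (1/2^n) ^ s := by
    intro p hp
    rw [Finset.mem_product, Finset.mem_singleton] at hp
    refine (Set.indicator_le_self _ _ _).trans ?_
    unfold wt
    rw [hp.1]
  refine (Finset.sum_le_sum h2).trans ?_
  rw [Finset.sum_const, nsmul_eq_mul]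
  gcongr
  rw [Finset.card_product, Finset.card_singleton, one_mul, Nat.card_Icc]
  have : idx n z + 2 + 1 - (idx n z - 2) ≤ 5 := by omega
  exact_mod_cast this

theorem Tn_mem {n : ℕ} {z y : ℝ} (hz : 0 ≤ z) (hy : 0 ≤ y) (h : |y - z| < 2 / 2^n) : (n, idx n y) ∈ Tn n z := by
  have h2 : (0:ℝ) < 2^n := by positivity
  rw [lt_div_iff₀ h2, ← abs_of_pos h2, ← abs_mul, sub_mul] at h
  rw [abs_lt] at h
  unfold Tn idx
  refine ⟨rfl, ?_, ?_⟩
  · show ⌊z * 2^n⌋₊ ≤ ⌊y * 2^n⌋₊ + 2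
    have : ⌊z * 2^n⌋₊ ≤ ⌊y * 2^n + 2⌋₊ := by
      apply Nat.floor_le_floor
      linarith
    have e : ⌊y * 2^n + 2⌋₊ = ⌊y * 2^n⌋₊ + 2 := by
      have := Nat.floor_add_natCast (show 0 ≤ y * 2^n by positivity) 2
      exact_mod_cast this
    omega
  · show ⌊y * 2^n⌋₊ ≤ ⌊z * 2^n⌋₊ + 2
    have : ⌊y * 2^n⌋₊ ≤ ⌊z * 2^n + 2⌋₊ := by
      apply Nat.floor_le_floor
      linarith
    have e : ⌊z * 2^n + 2⌋₊ = ⌊z * 2^n⌋₊ + 2 := by
      have := Nat.floor_add_natCast (show 0 ≤ z * 2^n by positivity) 2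
      exact_mod_cast this
    omega

/-- cover of a small set by dyadic intervals of one level -/
theorem single {s : ℝ} (hs : 0 < s) (hs1 : s ≤ 1) (A : Set ℝ) (hA : Metric.ediam A < 1) {ε : ℝ} (hε : 0 < ε) :
    ∃ (n : ℕ) (T : Set (ℕ × ℕ)), (∀ x ∈ A, x ∈ Icc (0:ℝ) 1 → ∀ y, 0 ≤ y → |y - x| < 1 / 2^n → (n, idx n y) ∈ T) ∧
      W s T ≤ 10 * Metric.ediam A ^ s + ENNReal.ofReal ε := by
  by_cases hne : ∃ z ∈ A, z ∈ Icc (0:ℝ) 1
  · obtain ⟨z, hz, hz01⟩ := hne
    set d := (Metric.ediam A).toReal with hd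
    have hdt : Metric.ediam A ≠ ⊤ := ne_top_of_lt hA
    have hd0 : 0 ≤ d := ENNReal.toReal_nonneg
    have hd1 : d < 1 := by
      have := (ENNReal.toReal_lt_toReal hdt ENNReal.one_ne_top).mpr hA
      simpa using this
    have hdist : ∀ x ∈ A, |x - z| ≤ d := by
      intro x hx
      have := Metric.edist_le_ediam_of_mem hx hz
      rw [edist_dist, Real.dist_eq] at this
      have := ENNReal.toReal_mono hdt this
      rwa [ENNReal.toReal_ofReal (abs_nonneg _)] at this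
    have key : ∀ n : ℕ, d ≤ 1/2^n → ∀ x ∈ A, x ∈ Icc (0:ℝ) 1 → ∀ y, 0 ≤ y → |y - x| < 1 / 2^n → (n, idx n y) ∈ Tn n z := by
      intro n hn x hx _ y hy hyx
      apply Tn_mem hz01.1 hy
      have h1 := hdist x hx
      have h2 : |y - z| ≤ |y - x| + |x - z| := abs_sub_le _ _ _
      have h3 : (2:ℝ) / 2^n = 1/2^n + 1/2^n := by ring
      linarith
    rcases eq_or_lt_of_le hd0 with h0 | h0
    · -- zero diameter
      have : Tendsto (fun n : ℕ => 5 * ((1:ℝ)/2^n) ^ s) atTop (𝓝 0) := by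
        have h1 : Tendsto (fun n : ℕ => ((1:ℝ)/2)^n) atTop (𝓝 0) :=
          tendsto_pow_atTop_nhds_zero_of_lt_one (by norm_num) (by norm_num)
        have h2 := (Real.continuousAt_rpow_const 0 s (Or.inr hs.le)).tendsto.comp h1
        rw [Real.zero_rpow hs.ne'] at h2
        have h3 := h2.const_mul 5
        rw [mul_zero] at h3
        refine h3.congr fun n => ?_
        show 5 * (((1:ℝ)/2)^n)^s = 5 * ((1:ℝ)/2^n) ^ s
        rw [div_pow, one_pow]
      obtain ⟨n, hn⟩ := ((tendsto_order.mp this).2 _ hε).exists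
      refine ⟨n, Tn n z, key n (by rw [← h0]; positivity), ?_⟩
      refine (W_Tn s n z).trans ?_
      refine le_trans ?_ le_add_self
      calc 5 * ENNReal.ofReal (1/2^n) ^ s = ENNReal.ofReal (5 * ((1:ℝ)/2^n) ^ s) := by
            rw [ENNReal.ofReal_mul (by norm_num), ENNReal.ofReal_rpow_of_nonneg (by positivity) hs.le]
            norm_num
        _ ≤ _ := ENNReal.ofReal_le_ofReal hn.le
    · obtain ⟨n, hn1, hn2⟩ := exists_nat_pow_near_of_lt_one h0 hd1.le (by norm_num : (0:ℝ) < 1/2) (by norm_num)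
      have e1 : ((1:ℝ)/2)^n = 1/2^n := by rw [div_pow, one_pow]
      refine ⟨n, Tn n z, key n (by rw [← e1]; exact hn2), ?_⟩
      refine (W_Tn s n z).trans ?_
      refine le_trans ?_ le_self_add
      have h1 : (1:ℝ)/2^n ≤ 2 * d := by
        rw [← e1]
        rw [pow_succ] at hn1
        linarith
      calc 5 * ENNReal.ofReal (1/2^n) ^ s ≤ 5 * ENNReal.ofReal (2 * d) ^ s := by
            gcongr
        _ = 5 * (ENNReal.ofReal 2 ^ s * Metric.ediam A ^ s) := by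
            rw [ENNReal.ofReal_mul (by norm_num), ENNReal.mul_rpow_of_nonneg _ _ hs.le, hd,
              ENNReal.ofReal_toReal hdt]
        _ ≤ 5 * (2 * Metric.ediam A ^ s) := by
            gcongr
            calc ENNReal.ofReal 2 ^ s ≤ ENNReal.ofReal 2 ^ (1:ℝ) := by
                  apply ENNReal.rpow_le_rpow_of_exponent_le _ hs1
                  norm_num
              _ = 2 := by rw [ENNReal.rpow_one]; norm_num
        _ = 10 * Metric.ediam A ^ s := by
            rw [← mul_assoc]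
            norm_num
  · refine ⟨0, ∅, ?_, ?_⟩
    · intro x hx hx01
      exact absurd ⟨x, hx, hx01⟩ hne
    · unfold W
      simp

theorem content {s t : ℝ} (hs : 0 < s) (hst : s < t) (ht : t ≤ 1)
    (C : ℕ → Set ℝ) (ρ : ℕ → ℝ) (hρ : ∀ k, 0 < ρ k) (hρ0 : Tendsto ρ atTop (𝓝 0))
    (hfull : ∀ᵐ x ∂(volume : Measure ℝ), x ∈ Ioo 0 1 → ∃ᶠ k in atTop, ∃ c ∈ C k, |x - c| < ρ k)
    (A : ℕ → Set ℝ)
    (hA : {x | x ∈ Icc (0:ℝ) 1 ∧ ∃ᶠ k in atTop, ∃ c ∈ C k, |x - c| < ρ k ^ (1/t)} ⊆ ⋃ j, A j) :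
    ENNReal.ofReal (1/20) ≤ ∑' j, Metric.ediam (A j) ^ s := by
  by_contra hcon
  push Not at hcon
  have hs1 : s ≤ 1 := by linarith
  have hsmall : ∀ j, Metric.ediam (A j) < 1 := by
    intro j
    by_contra h
    push Not at h
    have h1 : Metric.ediam (A j) ^ s ≤ ∑' j, Metric.ediam (A j) ^ s := ENNReal.le_tsum j
    have h2 : (1:ℝ≥0∞) ≤ Metric.ediam (A j) ^ s := ENNReal.one_le_rpow h hs
    have h3 := (h2.trans h1).trans_lt hcon
    rw [← ENNReal.ofReal_one] at h3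
    have := (ENNReal.ofReal_lt_ofReal_iff (by norm_num)).mp h3
    norm_num at this
  have hch := fun j => single hs hs1 (A j) (hsmall j) (show (0:ℝ) < (1/2)^(j+3) by positivity)
  choose n T hT1 hT2 using hch
  have hW : W s (⋃ j, T j) < 1 := by
    calc W s (⋃ j, T j) ≤ ∑' j, W s (T j) := by
          unfold W
          rw [ENNReal.tsum_comm]
          apply ENNReal.tsum_le_tsum
          intro p
          by_cases hp : p ∈ ⋃ j, T j
          · rw [Set.indicator_of_mem hp]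
            obtain ⟨j, hj⟩ := mem_iUnion.mp hp
            refine le_trans (le_of_eq ?_) (ENNReal.le_tsum j)
            rw [Set.indicator_of_mem hj]
          · rw [Set.indicator_of_notMem hp]
            exact zero_le
      _ ≤ ∑' j, (10 * Metric.ediam (A j) ^ s + ENNReal.ofReal ((1/2)^(j+3))) := ENNReal.tsum_le_tsum hT2
      _ = 10 * ∑' j, Metric.ediam (A j) ^ s + ∑' j : ℕ, ENNReal.ofReal ((1/2)^(j+3)) := by
          rw [ENNReal.tsum_add, ENNReal.tsum_mul_left]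
      _ ≤ 10 * ENNReal.ofReal (1/20) + ENNReal.ofReal (1/4) := by
          gcongr
          have hs2 : Summable (fun n : ℕ => ((1:ℝ)/2)^(n+3)) :=
            (summable_nat_add_iff 3).mpr summable_geometric_two
          rw [← ENNReal.ofReal_tsum_of_nonneg (fun n => by positivity) hs2]
          apply ENNReal.ofReal_le_ofReal
          have e : ∀ n : ℕ, ((1:ℝ)/2)^(n+3) = (1/8) * ((1:ℝ)/2)^n := by
            intro n
            rw [pow_add]
            ring
          simp_rw [e]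
          rw [tsum_mul_left, tsum_geometric_two]
          norm_num
      _ = ENNReal.ofReal (3/4) := by
          have : (10:ℝ≥0∞) = ENNReal.ofReal 10 := by norm_num
          rw [this, ← ENNReal.ofReal_mul (by norm_num), ← ENNReal.ofReal_add (by norm_num) (by norm_num)]
          norm_num
      _ < 1 := by
          rw [← ENNReal.ofReal_one]
          exact (ENNReal.ofReal_lt_ofReal_iff (by norm_num)).mpr (by norm_num)
  set U : ℕ → Set ℝ := fun n => {y | ∃ k, n ≤ k ∧ ∃ c ∈ C k, |y - c| < ρ k ^ (1/t)} with hU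
  have hopen : ∀ n, IsOpen (U n) := by
    intro n
    have e : U n = ⋃ k, ⋃ (_ : n ≤ k), ⋃ c ∈ C k, Metric.ball c (ρ k ^ (1/t)) := by
      ext y
      simp only [hU, mem_iUnion, Metric.mem_ball, Real.dist_eq]
      constructor
      · rintro ⟨k, hk, c, hc, hy⟩
        exact ⟨k, hk, c, hc, hy⟩
      · rintro ⟨k, hk, c, hc, hy⟩
        exact ⟨k, hk, c, hc, hy⟩
    rw [e]
    exact isOpen_iUnion fun k => isOpen_iUnion fun _ => isOpen_iUnion fun c => isOpen_iUnion fun _ => Metric.isOpen_ball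
  obtain ⟨x, hx01, hxU, hxL⟩ := game U hopen (fun n => full_of_ae hs hst ht C ρ hρ hρ0 hfull n) hW
  have hxE : x ∈ {x | x ∈ Icc (0:ℝ) 1 ∧ ∃ᶠ k in atTop, ∃ c ∈ C k, |x - c| < ρ k ^ (1/t)} := by
    refine ⟨hx01, ?_⟩
    rw [frequently_atTop]
    intro m
    obtain ⟨k, hk, h⟩ := hxU m
    exact ⟨k, hk, h⟩
  obtain ⟨j, hj⟩ := mem_iUnion.mp (hA hxE)
  obtain ⟨L, hL1, hL2, hL3, hL4⟩ := hxL (n j + 1)
  set y : ℝ := (L.2:ℝ) / 2^L.1 with hy
  have hyL : y ∈ D L := D_nonempty L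
  have hy0 : 0 ≤ y := by positivity
  have hxy : |y - x| < 1 / 2^(n j) := by
    have h1 := hL2.1
    have h2 := hL2.2
    rw [add_div] at h2
    have h3 : (1:ℝ) / 2^L.1 ≤ 1/2^(n j + 1) := by
      apply one_div_le_one_div_of_le (by positivity)
      exact pow_le_pow_right₀ (by norm_num) hL1
    have h4 : (1:ℝ)/2^(n j + 1) < 1/2^(n j) := by
      apply one_div_lt_one_div_of_lt (by positivity)
      exact pow_lt_pow_right₀ (by norm_num) (by omega)
    rw [abs_lt]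
    constructor <;> linarith
  have hmem := hT1 j x hj hx01 y hy0 hxy
  refine hL4 _ (mem_iUnion.mpr ⟨j, hmem⟩) ?_
  exact D_nested hyL (mem_D_idx hy0 _) (by show n j ≤ L.1; omega)

end Pool.Agent.R331.MT
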