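import Mathlib

set_option autoImplicit false

/-!
A one-dimensional mass transference lemma: if almost every point is within `ρ k` of the set `C k`
for infinitely many `k`, then the union over `k ≥ n` of the balls of radius `(ρ k)^(1/t)` cannot be
covered by intervals with small `s`-dimensional sum, `s < t`.
-/

namespace Pool.Agent.R331.MT

open MeasureTheory Filter Topology Set
open scoped ENNReal

theorem rpow_split {x : ℝ≥0∞} (h0 : x ≠ 0) (ht : x ≠ ⊤) (s : ℝ) : x ^ (1-s) * x ^ s = x := by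
  rw [← ENNReal.rpow_add _ _ h0 ht, sub_add_cancel, ENNReal.rpow_one]

theorem rpow_tsum_le {ι : Type*} (f : ι → ℝ≥0∞) {s : ℝ} (hs : 0 < s) (hs1 : s ≤ 1) :
    (∑' i, f i) ^ s ≤ ∑' i, (f i) ^ s := by
  classical
  set T := ∑' i, f i with hT
  rcases eq_or_ne T 0 with h0 | h0
  · rw [h0, ENNReal.zero_rpow_of_pos hs]
    exact zero_le
  by_cases htop : T = ⊤
  · -- if the right side were finite, the left would be finite
    by_contra hcon
    push Not at hcon
    have hfin : ∑' i, (f i) ^ s ≠ ⊤ := ne_top_of_lt hcon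
    have h1 : ∀ᶠ i in cofinite, (f i)^s < 1 := by
      have := ENNReal.tendsto_cofinite_zero_of_tsum_ne_top hfin
      exact (tendsto_order.mp this).2 _ one_pos
    have h2 : {i | ¬ (f i)^s < 1}.Finite := h1
    have h3 : ∀ i, f i ≠ ⊤ := by
      intro i hi
      apply hfin
      apply ENNReal.tsum_eq_top_of_eq_top
      exact ⟨i, by rw [hi, ENNReal.top_rpow_of_pos hs]⟩
    -- T ≤ finite sum + ∑ f^s
    have h4 : T ≤ ∑ i ∈ h2.toFinset, f i + ∑' i, (f i)^s := by
      rw [hT]
      calc ∑' i, f i ≤ ∑' i, ((if i ∈ h2.toFinset then f i else 0) + (f i)^s) := by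
            apply ENNReal.tsum_le_tsum
            intro i
            by_cases hi : i ∈ h2.toFinset
            · rw [if_pos hi]
              exact le_self_add
            · rw [if_neg hi, zero_add]
              have h5 : (f i)^s < 1 := by
                by_contra h6
                exact hi (h2.mem_toFinset.mpr h6)
              have h7 : f i ≤ 1 := by
                by_contra h8
                push Not at h8
                have := ENNReal.one_lt_rpow h8 hs
                exact absurd this (not_lt.mpr h5.le)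
              calc f i = (f i)^(1:ℝ) := (ENNReal.rpow_one _).symm
                _ ≤ (f i)^s := ENNReal.rpow_le_rpow_of_exponent_ge h7 hs1
        _ = ∑' i, (if i ∈ h2.toFinset then f i else 0) + ∑' i, (f i)^s := ENNReal.tsum_add
        _ = _ := by
            congr 1
            rw [tsum_eq_sum (s := h2.toFinset)]
            · apply Finset.sum_congr rfl
              intro i hi
              rw [if_pos hi]
            · intro i hi
              rw [if_neg hi]
    have h5 : ∑ i ∈ h2.toFinset, f i + ∑' i, (f i)^s ≠ ⊤ :=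
      ENNReal.add_ne_top.mpr ⟨ENNReal.sum_ne_top.mpr fun i _ => h3 i, hfin⟩
    exact h5 (top_le_iff.mp (htop ▸ h4))
  · -- f i ≤ T^(1-s) (f i)^s
    have h1 : ∀ i, f i ≤ T^(1-s) * (f i)^s := by
      intro i
      have hi : f i ≤ T := ENNReal.le_tsum i
      rcases eq_or_ne (f i) 0 with hi0 | hi0
      · rw [hi0]; exact zero_le
      have hit : f i ≠ ⊤ := ne_top_of_le_ne_top htop hi
      calc f i = (f i)^(1-s) * (f i)^s := (rpow_split hi0 hit s).symm
        _ ≤ _ := by
            gcongr
    have h2 : T ≤ T^(1-s) * ∑' i, (f i)^s := by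
      rw [← ENNReal.tsum_mul_left]
      exact ENNReal.tsum_le_tsum h1
    have h3 : T = T^(1-s) * T^s := (rpow_split h0 htop s).symm
    have h4 : T^(1-s) * T^s ≤ T^(1-s) * ∑' i, (f i)^s := by
      rw [← h3]
      exact h2
    have h5 : T^(1-s) ≠ 0 := (ENNReal.rpow_pos (pos_iff_ne_zero.mpr h0) htop).ne'
    have h6 : T^(1-s) ≠ ⊤ := by
      apply ENNReal.rpow_ne_top_of_nonneg (by linarith) htop
    exact (ENNReal.mul_le_mul_iff_right h5 h6).mp h4

theorem lemma1 {ι : Type*} [Countable ι] {s t : ℝ} (hs : 0 < s) (hst : s < t) (ht : t ≤ 1)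
    (C : ℕ → Set ℝ) (ρ : ℕ → ℝ) (hρ : ∀ k, 0 < ρ k) (hρ0 : Tendsto ρ atTop (𝓝 0)) {a b : ℝ}
    (hab : a < b)
    (hfull : ∀ᵐ x ∂(volume : Measure ℝ), x ∈ Ioo a b → ∃ᶠ k in atTop, ∃ c ∈ C k, |x - c| < ρ k) (n : ℕ)
    (u v : ι → ℝ) (huv : ∀ j, u j ≤ v j)
    (hcov : ∀ y ∈ Ioo a b, (∃ k, n ≤ k ∧ ∃ c ∈ C k, |y - c| < ρ k ^ (1/t)) → ∃ j, y ∈ Ico (u j) (v j)) :
    ENNReal.ofReal (b-a) ^ s ≤ ∑' j, ENNReal.ofReal (v j - u j) ^ s := by
  classical
  by_contra hcon
  push Not at hcon
  have hs1 : s < 1 := by linarith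
  set S := ∑' j, ENNReal.ofReal (v j - u j) ^ s with hS
  have hSt : S ≠ ⊤ := ne_top_of_lt hcon
  have hbat : ENNReal.ofReal (b-a) ≠ ⊤ := ENNReal.ofReal_ne_top
  have hba0 : ENNReal.ofReal (b-a) ≠ 0 := by
    rw [ENNReal.ofReal_ne_zero_iff]
    linarith
  -- each length is at most b - a
  have hlen : ∀ j, ENNReal.ofReal (v j - u j) ≤ ENNReal.ofReal (b-a) := by
    intro j
    by_contra h
    push Not at h
    have h1 : ENNReal.ofReal (b-a) ^ s < ENNReal.ofReal (v j - u j) ^ s := ENNReal.rpow_lt_rpow h hs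
    have h2 : ENNReal.ofReal (v j - u j) ^ s ≤ S := ENNReal.le_tsum j
    exact absurd (h1.trans_le h2) (not_lt.mpr hcon.le)
  have hsum1 : ∑' j, ENNReal.ofReal (v j - u j) < ENNReal.ofReal (b-a) := by
    have h1 : ∀ j, ENNReal.ofReal (v j - u j) ≤ ENNReal.ofReal (b-a) ^ (1-s) * ENNReal.ofReal (v j - u j) ^ s := by
      intro j
      rcases eq_or_ne (ENNReal.ofReal (v j - u j)) 0 with hi0 | hi0
      · rw [hi0]; exact zero_le
      calc ENNReal.ofReal (v j - u j) = ENNReal.ofReal (v j - u j)^(1-s) * ENNReal.ofReal (v j - u j)^s :=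
            (rpow_split hi0 ENNReal.ofReal_ne_top s).symm
        _ ≤ _ := by
            have := hlen j
            gcongr
    have h5 : ENNReal.ofReal (b-a)^(1-s) ≠ 0 := (ENNReal.rpow_pos (pos_iff_ne_zero.mpr hba0) hbat).ne'
    have h6 : ENNReal.ofReal (b-a)^(1-s) ≠ ⊤ := ENNReal.rpow_ne_top_of_nonneg (by linarith) hbat
    calc ∑' j, ENNReal.ofReal (v j - u j) ≤ ENNReal.ofReal (b-a) ^ (1-s) * S := by
          rw [hS, ← ENNReal.tsum_mul_left]
          exact ENNReal.tsum_le_tsum h1
      _ < ENNReal.ofReal (b-a) ^ (1-s) * ENNReal.ofReal (b-a) ^ s :=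
          (ENNReal.mul_lt_mul_iff_right h5 h6).mpr hcon
      _ = ENNReal.ofReal (b-a) := rpow_split hba0 hbat s
  -- the exceptional open part
  set A : Set ℝ := ⋃ j, Icc (u j) (v j) with hA
  have hAm : MeasurableSet A := MeasurableSet.iUnion fun j => measurableSet_Icc
  have hvA : volume A ≤ ∑' j, ENNReal.ofReal (v j - u j) := by
    refine (measure_iUnion_le _).trans (ENNReal.tsum_le_tsum fun j => ?_)
    rw [Real.volume_Icc]
  have hD : volume (Ioo a b \ A) ≠ 0 := by
    intro h0
    have h1 : volume (Ioo a b) ≤ volume A := by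
      calc volume (Ioo a b) ≤ volume ((Ioo a b \ A) ∪ A) := measure_mono (by
            intro x hx
            by_cases hxA : x ∈ A
            · right; exact hxA
            · left; exact ⟨hx, hxA⟩)
        _ ≤ volume (Ioo a b \ A) + volume A := measure_union_le _ _
        _ = volume A := by rw [h0, zero_add]
    rw [Real.volume_Ioo] at h1
    exact absurd (h1.trans hvA) (not_le.mpr hsum1)
  -- Borel-Cantelli
  have hBC : ∀ᵐ x ∂(volume : Measure ℝ), {j | x ∈ Icc (u j - 4 * (v j - u j)) (v j + 4 * (v j - u j))}.Finite := by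
    apply ae_finite_setOfPred_mem
    have h1 : ∀ j, volume (Icc (u j - 4 * (v j - u j)) (v j + 4 * (v j - u j))) = 9 * ENNReal.ofReal (v j - u j) := by
      intro j
      rw [Real.volume_Icc]
      have : v j + 4 * (v j - u j) - (u j - 4 * (v j - u j)) = 9 * (v j - u j) := by ring
      rw [this, ENNReal.ofReal_mul (by norm_num)]
      norm_num
    simp_rw [h1]
    rw [ENNReal.tsum_mul_left]
    exact ENNReal.mul_ne_top (by norm_num) (ne_top_of_lt (hsum1.trans_le le_top))
  -- the measure
  set ν : Measure ℝ := Measure.sum (fun j => (ENNReal.ofReal (v j - u j) ^ s) • Measure.dirac (u j)) with hν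
  have hνball : ∀ B : Set ℝ, MeasurableSet B → ν B = ∑' j, if u j ∈ B then ENNReal.ofReal (v j - u j) ^ s else 0 := by
    intro B hB
    rw [hν, Measure.sum_apply _ hB]
    apply tsum_congr
    intro j
    rw [Measure.smul_apply, Measure.dirac_apply' _ hB, smul_eq_mul]
    by_cases h : u j ∈ B
    · simp [h]
    · simp [h]
  have : IsFiniteMeasure ν := by
    refine ⟨?_⟩
    rw [hνball _ MeasurableSet.univ]
    simp only [mem_univ, if_true]
    exact hSt.lt_top
  have hder := Besicovitch.ae_tendsto_rnDeriv ν (volume : Measure ℝ)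
  have hder2 := Measure.rnDeriv_lt_top ν (volume : Measure ℝ)
  have hall := hfull.and (hBC.and (hder.and hder2))
  have hex : ∃ x ∈ Ioo a b \ A, (x ∈ Ioo a b → ∃ᶠ k in atTop, ∃ c ∈ C k, |x - c| < ρ k) ∧
      {j | x ∈ Icc (u j - 4 * (v j - u j)) (v j + 4 * (v j - u j))}.Finite ∧
      Tendsto (fun r => ν (Metric.closedBall x r) / volume (Metric.closedBall x r)) (𝓝[>] 0) (𝓝 (ν.rnDeriv volume x)) ∧
      ν.rnDeriv volume x < ⊤ := by
    by_contra hno
    push Not at hno
    apply hD
    rw [ae_iff] at hall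
    refine measure_mono_null ?_ hall
    intro x hx hbad
    exact absurd (hno x hx hbad.1 hbad.2.1 hbad.2.2.1) (not_le.mpr hbad.2.2.2)
  obtain ⟨x, hxD, hx1, hx2, hx3, hx4⟩ := hex
  have hx1' := hx1 hxD.1
  -- constants
  obtain ⟨K, hK, hKr⟩ : ∃ K : ℝ, 0 < K ∧ ∀ᶠ r in 𝓝[>] (0:ℝ), ν (Metric.closedBall x r) ≤ ENNReal.ofReal (K * r) := by
    obtain ⟨K', hK'1, hK'2⟩ := ENNReal.lt_iff_exists_nnreal_btwn.mp hx4
    have h1 := (tendsto_order.mp hx3).2 _ hK'1
    refine ⟨2 * (K' + 1), by positivity, ?_⟩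
    filter_upwards [h1, self_mem_nhdsWithin] with r hr hr0
    have hr0' : (0:ℝ) < r := hr0
    rw [Real.volume_closedBall] at hr
    have h2 := (ENNReal.div_lt_iff (Or.inl (by simpa using hr0')) (Or.inl ENNReal.ofReal_ne_top)).mp hr
    refine h2.le.trans ?_
    rw [← ENNReal.ofReal_coe_nnreal, ← ENNReal.ofReal_mul (NNReal.coe_nonneg _)]
    apply ENNReal.ofReal_le_ofReal
    nlinarith [K'.2]
  obtain ⟨r0, hr0, hr0'⟩ : ∃ r0 : ℝ, 0 < r0 ∧ ∀ r, 0 < r → r < r0 → ν (Metric.closedBall x r) ≤ ENNReal.ofReal (K * r) := by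
    rw [eventually_nhdsWithin_iff, Metric.eventually_nhds_iff] at hKr
    obtain ⟨ε, hε, h⟩ := hKr
    refine ⟨ε, hε, fun r h1 h2 => h ?_ h1⟩
    rw [Real.dist_eq, sub_zero, abs_of_pos h1]
    exact h2
  -- distance to the finitely many large intervals
  obtain ⟨δ, hδ, hδ'⟩ : ∃ δ : ℝ, 0 < δ ∧ ∀ j, x ∈ Icc (u j - 4 * (v j - u j)) (v j + 4 * (v j - u j)) →
      x + δ ≤ u j ∨ v j + δ ≤ x := by
    have h1 : ∀ j, 0 < max (u j - x) (x - v j) := by
      intro j
      rw [lt_max_iff]
      have : x ∉ Icc (u j) (v j) := fun h => hxD.2 (mem_iUnion.mpr ⟨j, h⟩)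
      rw [mem_Icc, not_and_or] at this
      rcases this with h | h
      · left; linarith [not_le.mp h]
      · right; linarith [not_le.mp h]
    obtain ⟨δ, hδ1, hδ2⟩ : ∃ δ : ℝ, 0 < δ ∧ ∀ j ∈ hx2.toFinset, δ ≤ max (u j - x) (x - v j) := by
      clear hr0' hKr
      generalize hx2.toFinset = F
      classical
      induction F using Finset.induction_on with
      | empty => exact ⟨1, one_pos, fun j hj => absurd hj (Finset.notMem_empty _)⟩
      | insert i F hi ih =>
        obtain ⟨δ, h1', h2'⟩ := ih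
        refine ⟨min δ (max (u i - x) (x - v i)), lt_min h1' (h1 i), fun j hj => ?_⟩
        rcases Finset.mem_insert.mp hj with rfl | hj
        · exact min_le_right _ _
        · exact (min_le_left _ _).trans (h2' j hj)
    refine ⟨δ, hδ1, fun j hj => ?_⟩
    have := hδ2 j (hx2.mem_toFinset.mpr hj)
    rcases le_max_iff.mp this with h | h
    · left; linarith
    · right; linarith
  -- smallness of ρ k
  have hpow : Tendsto (fun k => ρ k ^ (1 - s/t)) atTop (𝓝 0) := by
    have h1 : 0 < 1 - s/t := by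
      have : s / t < 1 := by rw [div_lt_one (by linarith)]; exact hst
      linarith
    have := (Real.continuousAt_rpow_const 0 (1 - s/t) (Or.inr h1.le)).tendsto.comp hρ0
    rw [Real.zero_rpow h1.ne'] at this
    exact this
  have hsmall : ∀ᶠ k in atTop, ρ k < min 1 (min (r0/3) (min (δ/3) (min ((x-a)/3) ((b-x)/3)))) ∧
      ρ k ^ (1 - s/t) < 1/(3*K) ∧ n ≤ k := by
    have hm : 0 < min 1 (min (r0/3) (min (δ/3) (min ((x-a)/3) ((b-x)/3)))) := by
      have := hxD.1.1
      have := hxD.1.2
      refine lt_min one_pos (lt_min (by linarith) (lt_min (by linarith) (lt_min (by linarith) (by linarith))))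
    exact ((tendsto_order.mp hρ0).2 _ hm).and (((tendsto_order.mp hpow).2 _ (by positivity)).and (eventually_ge_atTop n))
  obtain ⟨k, ⟨c, hcC, hxc⟩, hk1, hk2, hk3⟩ := (hx1'.and_eventually hsmall).exists
  have hρk := hρ k
  have g1 : ρ k < 1 := hk1.trans_le (min_le_left _ _)
  have g2 : ρ k < r0/3 := hk1.trans_le ((min_le_right _ _).trans (min_le_left _ _))
  have g3 : ρ k < δ/3 := hk1.trans_le ((min_le_right _ _).trans ((min_le_right _ _).trans (min_le_left _ _)))
  have g4 : ρ k < (x-a)/3 := hk1.trans_le ((min_le_right _ _).trans ((min_le_right _ _).trans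
    ((min_le_right _ _).trans (min_le_left _ _))))
  have g5 : ρ k < (b-x)/3 := hk1.trans_le ((min_le_right _ _).trans ((min_le_right _ _).trans
    ((min_le_right _ _).trans (min_le_right _ _))))
  set σ := ρ k ^ (1/t) with hσ
  have ht0 : 0 < t := by linarith
  have hσ0 : 0 < σ := Real.rpow_pos_of_pos hρk _
  have hσρ : σ ≤ ρ k := by
    calc σ ≤ ρ k ^ (1:ℝ) := Real.rpow_le_rpow_of_exponent_ge hρk g1.le (by rw [le_div_iff₀ ht0]; linarith)
      _ = ρ k := Real.rpow_one _
  rw [abs_lt] at hxc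
  -- the small ball is covered by short intervals near x
  set G : ι → ℝ≥0∞ := fun j => if u j ∈ Metric.closedBall x (3 * ρ k) then ENNReal.ofReal (v j - u j) else 0 with hG
  have hcovb : Metric.ball c σ ⊆ ⋃ j : {j // u j ∈ Metric.closedBall x (3 * ρ k)}, Ico (u j.1) (v j.1) := by
    intro y hy
    rw [Metric.mem_ball, Real.dist_eq] at hy
    have hy' := abs_lt.mp hy
    have hyab : y ∈ Ioo a b := ⟨by linarith, by linarith⟩
    obtain ⟨j, hj⟩ := hcov y hyab ⟨k, hk3, c, hcC, hy⟩
    refine mem_iUnion.mpr ⟨⟨j, ?_⟩, hj⟩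
    have hnot : x ∉ Icc (u j - 4 * (v j - u j)) (v j + 4 * (v j - u j)) := by
      intro hin
      rcases hδ' j hin with h | h
      · linarith [hj.1]
      · linarith [hj.2]
    rw [mem_Icc, not_and_or, not_le, not_le] at hnot
    rw [Metric.mem_closedBall, Real.dist_eq, abs_le]
    have := hj.1
    have := hj.2
    rcases hnot with h | h
    · constructor <;> linarith
    · constructor <;> linarith
  have hvol : ENNReal.ofReal (2 * σ) ≤ ∑' j, G j := by
    calc ENNReal.ofReal (2 * σ) = volume (Metric.ball c σ) := (Real.volume_ball c σ).symm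
      _ ≤ volume (⋃ j : {j // u j ∈ Metric.closedBall x (3 * ρ k)}, Ico (u j.1) (v j.1)) := measure_mono hcovb
      _ ≤ ∑' j : {j // u j ∈ Metric.closedBall x (3 * ρ k)}, volume (Ico (u j.1) (v j.1)) := measure_iUnion_le _
      _ = ∑' j : {j // u j ∈ Metric.closedBall x (3 * ρ k)}, ENNReal.ofReal (v j.1 - u j.1) := by
          apply tsum_congr
          intro j
          rw [Real.volume_Ico]
      _ = ∑' j, G j := by
          have := tsum_subtype {j | u j ∈ Metric.closedBall x (3 * ρ k)} (fun j => ENNReal.ofReal (v j - u j))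
          refine Eq.trans this ?_
          apply tsum_congr
          intro j
          rw [hG]
          by_cases h : u j ∈ Metric.closedBall x (3 * ρ k)
          · rw [Set.indicator_of_mem (show j ∈ {j | u j ∈ Metric.closedBall x (3 * ρ k)} from h)]
            simp only [if_pos h]
          · rw [Set.indicator_of_notMem (show j ∉ {j | u j ∈ Metric.closedBall x (3 * ρ k)} from h)]
            simp only [if_neg h]
  have hν1 : ENNReal.ofReal (2 * σ) ^ s ≤ ν (Metric.closedBall x (3 * ρ k)) := by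
    calc ENNReal.ofReal (2 * σ) ^ s ≤ (∑' j, G j) ^ s := ENNReal.rpow_le_rpow hvol hs.le
      _ ≤ ∑' j, (G j) ^ s := rpow_tsum_le G hs hs1.le
      _ = ν (Metric.closedBall x (3 * ρ k)) := by
          rw [hνball _ measurableSet_closedBall]
          apply tsum_congr
          intro j
          rw [hG]
          by_cases h : u j ∈ Metric.closedBall x (3 * ρ k)
          · simp only [if_pos h]
          · simp only [if_neg h, ENNReal.zero_rpow_of_pos hs]
  have hν2 := hr0' (3 * ρ k) (by linarith) (by linarith)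
  have hfin : (2 * σ) ^ s ≤ K * (3 * ρ k) := by
    have h1 := hν1.trans hν2
    rw [ENNReal.ofReal_rpow_of_pos (by linarith)] at h1
    exact (ENNReal.ofReal_le_ofReal_iff (by positivity)).mp h1
  have h1 : ρ k ^ (s/t) ≤ (2 * σ) ^ s := by
    calc ρ k ^ (s/t) = σ ^ s := by
          rw [hσ, ← Real.rpow_mul hρk.le]
          congr 1
          field_simp
      _ ≤ (2 * σ) ^ s := Real.rpow_le_rpow hσ0.le (by linarith) hs.le
  have h2 : ρ k = ρ k ^ (1 - s/t) * ρ k ^ (s/t) := by
    rw [← Real.rpow_add hρk, sub_add_cancel, Real.rpow_one]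
  have h3 : 0 < ρ k ^ (s/t) := Real.rpow_pos_of_pos hρk _
  have h4 : K * (3 * ρ k) < ρ k ^ (s/t) := by
    calc K * (3 * ρ k) = (3 * K * ρ k ^ (1 - s/t)) * ρ k ^ (s/t) := by
          nth_rewrite 1 [h2]
          ring
      _ < 1 * ρ k ^ (s/t) := by
          apply mul_lt_mul_of_pos_right _ h3
          rw [lt_div_iff₀ (by positivity)] at hk2
          linarith
      _ = _ := one_mul _
  linarith

end Pool.Agent.R331.MT
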