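import Pool.Agent.R331.MT.One

set_option autoImplicit false

/-!
Intersections of open sets with full dyadic content, by a nested-interval game.
-/

namespace Pool.Agent.R331.MT

open MeasureTheory Filter Topology Set
open scoped ENNReal

/-- dyadic interval of level `p.1` -/
def D (p : ℕ × ℕ) : Set ℝ := Ico ((p.2:ℝ) / 2^p.1) (((p.2:ℝ)+1) / 2^p.1)

def Dc (p : ℕ × ℕ) : Set ℝ := Icc ((p.2:ℝ) / 2^p.1) (((p.2:ℝ)+1) / 2^p.1)

noncomputable def idx (n : ℕ) (x : ℝ) : ℕ := ⌊x * 2^n⌋₊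

theorem mem_D_iff {x : ℝ} (hx : 0 ≤ x) (n k : ℕ) : x ∈ D (n, k) ↔ k = idx n x := by
  unfold D idx
  rw [mem_Ico, div_le_iff₀ (by positivity), lt_div_iff₀ (by positivity), eq_comm,
    Nat.floor_eq_iff (by positivity)]

theorem D_nonneg {p : ℕ × ℕ} {x : ℝ} (h : x ∈ D p) : 0 ≤ x :=
  le_trans (by positivity) h.1

theorem mem_D_idx {x : ℝ} (hx : 0 ≤ x) (n : ℕ) : x ∈ D (n, idx n x) := (mem_D_iff hx n _).mpr rfl

theorem idx_div {x : ℝ} {n m : ℕ} (h : n ≤ m) : idx n x = idx m x / 2^(m-n) := by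
  unfold idx
  obtain ⟨d, rfl⟩ := Nat.exists_eq_add_of_le h
  have e : n + d - n = d := by omega
  rw [e, ← Nat.floor_div_natCast]
  congr 1
  rw [pow_add]
  push_cast
  field_simp

/-- nested or disjoint -/
theorem D_nested {p q : ℕ × ℕ} {x : ℝ} (hp : x ∈ D p) (hq : x ∈ D q) (h : q.1 ≤ p.1) : D p ⊆ D q := by
  intro y hy
  have hx := D_nonneg hp
  have hy0 := D_nonneg hy
  have e1 : p.2 = idx p.1 x := (mem_D_iff hx p.1 p.2).mp hp
  have e2 : q.2 = idx q.1 x := (mem_D_iff hx q.1 q.2).mp hq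
  have e3 : p.2 = idx p.1 y := (mem_D_iff hy0 p.1 p.2).mp hy
  apply (mem_D_iff hy0 q.1 q.2).mpr
  rw [e2, idx_div h, idx_div (x := y) h, ← e1, ← e3]

theorem D_nonempty (p : ℕ × ℕ) : ((p.2:ℝ) / 2^p.1) ∈ D p := by
  refine ⟨le_rfl, ?_⟩
  apply div_lt_div_of_pos_right _ (by positivity)
  linarith

theorem D_level {p q : ℕ × ℕ} (h : D p ⊆ D q) : q.1 ≤ p.1 := by
  by_contra hcon
  push Not at hcon
  have h1 := D_nested (h (D_nonempty p)) (D_nonempty p) hcon.le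
  have h2 : D p = D q := subset_antisymm h h1
  have h3 : volume (D p) = volume (D q) := by rw [h2]
  unfold D at h3
  rw [Real.volume_Ico, Real.volume_Ico] at h3
  have e : ∀ p : ℕ × ℕ, ((p.2:ℝ)+1) / 2^p.1 - (p.2:ℝ) / 2^p.1 = 1 / 2^p.1 := by
    intro p
    field_simp
    ring
  rw [e, e] at h3
  have h4 : (1:ℝ) / 2^p.1 = 1 / 2^q.1 := by
    have := congrArg ENNReal.toReal h3
    rwa [ENNReal.toReal_ofReal (by positivity), ENNReal.toReal_ofReal (by positivity)] at this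
  have h5 : (1:ℝ) / 2^q.1 < 1 / 2^p.1 := by
    apply one_div_lt_one_div_of_lt (by positivity)
    exact pow_lt_pow_right₀ (by norm_num) hcon
  linarith

theorem D_inj {p q : ℕ × ℕ} {x : ℝ} (hp : x ∈ D p) (hq : x ∈ D q) (h : p.1 = q.1) : p = q := by
  have hx := D_nonneg hp
  have e1 : p.2 = idx p.1 x := (mem_D_iff hx p.1 p.2).mp hp
  have e2 : q.2 = idx q.1 x := (mem_D_iff hx q.1 q.2).mp hq
  ext
  · exact h
  · rw [e1, e2, h]

noncomputable def wt (s : ℝ) (p : ℕ × ℕ) : ℝ≥0∞ := ENNReal.ofReal (1 / 2^p.1) ^ s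

/-- total weight of a set of dyadic indices -/
noncomputable def W (s : ℝ) (T : Set (ℕ × ℕ)) : ℝ≥0∞ := ∑' p, T.indicator (wt s) p

theorem W_mono {s : ℝ} {T T' : Set (ℕ × ℕ)} (h : T ⊆ T') : W s T ≤ W s T' :=
  ENNReal.tsum_le_tsum fun _ => Set.indicator_le_indicator_of_subset h (fun _ => zero_le) _

theorem W_union {s : ℝ} (T T' : Set (ℕ × ℕ)) : W s (T ∪ T') ≤ W s T + W s T' := by
  unfold W
  rw [← ENNReal.tsum_add]
  apply ENNReal.tsum_le_tsum
  intro p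
  by_cases hp1 : p ∈ T
  · rw [Set.indicator_of_mem (show p ∈ T ∪ T' from Or.inl hp1), Set.indicator_of_mem hp1]
    exact le_self_add
  · by_cases hp2 : p ∈ T'
    · rw [Set.indicator_of_mem (show p ∈ T ∪ T' from Or.inr hp2), Set.indicator_of_mem hp2]
      exact le_add_self
    · rw [Set.indicator_of_notMem (by rintro (h | h); exact hp1 h; exact hp2 h)]
      exact zero_le

theorem W_disj {s : ℝ} {T T' S : Set (ℕ × ℕ)} (h : T ⊆ S) (h' : T' ⊆ S) (hd : ∀ p ∈ T, p ∉ T') :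
    W s T + W s T' ≤ W s S := by
  unfold W
  rw [← ENNReal.tsum_add]
  apply ENNReal.tsum_le_tsum
  intro p
  by_cases hp1 : p ∈ T
  · rw [Set.indicator_of_mem (h hp1), Set.indicator_of_mem hp1, Set.indicator_of_notMem (hd p hp1), add_zero]
  · rw [Set.indicator_of_notMem hp1, zero_add]
    exact Set.indicator_le_indicator_of_subset h' (fun _ => zero_le) _

/-- full content property of `U` -/
def Full (s : ℝ) (U : Set ℝ) : Prop := ∀ L : ℕ × ℕ, D L ⊆ Ico 0 1 → ∀ T : Set (ℕ × ℕ),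
  (∀ y ∈ D L, y ∈ U → ∃ p ∈ T, y ∈ D p) → wt s L ≤ W s T

def Unsat (s : ℝ) (T : Set (ℕ × ℕ)) (L : ℕ × ℕ) : Prop :=
  (∀ J ∈ T, ¬ D L ⊆ D J) ∧ W s {J | J ∈ T ∧ D J ⊆ D L} < wt s L

theorem game_step {s : ℝ} {T : Set (ℕ × ℕ)} {U : Set ℝ} (hU : IsOpen U) (hF : Full s U) {L : ℕ × ℕ}
    (hL : Unsat s T L) (hL1 : D L ⊆ Ico 0 1) :
    ∃ L', D L' ⊆ D L ∧ Dc L' ⊆ U ∧ L.1 < L'.1 ∧ Unsat s T L' := by
  classical
  by_contra hno
  push Not at hno
  set A : Set (ℕ × ℕ) := {L' | D L' ⊆ D L ∧ Dc L' ⊆ U ∧ L.1 < L'.1} with hA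
  set Mx : Set (ℕ × ℕ) := {L' | L' ∈ A ∧ (∀ L'' ∈ A, D L' ⊆ D L'' → L'' = L') ∧ ∀ J ∈ T, ¬ D L' ⊆ D J} with hMx
  set T' : Set (ℕ × ℕ) := {J | J ∈ T ∧ D J ⊆ D L ∧ ∀ L' ∈ Mx, ¬ D J ⊆ D L'} with hT'
  have hcover : ∀ y ∈ D L, y ∈ U → ∃ p ∈ Mx ∪ T', y ∈ D p := by
    intro y hyL hyU
    have hy0 := D_nonneg hyL
    have hex : ∃ n, (n, idx n y) ∈ A := by
      obtain ⟨ε, hε, hball⟩ := Metric.isOpen_iff.mp hU y hyU
      obtain ⟨n₀, hn₀⟩ := exists_pow_lt_of_lt_one hε (by norm_num : (1:ℝ)/2 < 1)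
      set n := max n₀ (L.1 + 1) with hn
      refine ⟨n, ?_, ?_, ?_⟩
      · exact D_nested (mem_D_idx hy0 n) hyL (by show L.1 ≤ n; omega)
      · intro z hz
        apply hball
        have hyn := mem_D_idx hy0 n
        have h1 := hz.1
        have h2 := hz.2
        have h3 := hyn.1
        have h4 := hyn.2
        have h5 : (1:ℝ) / 2^n < ε := by
          calc (1:ℝ) / 2^n = (1/2)^n := by rw [div_pow, one_pow]
            _ ≤ (1/2)^n₀ := pow_le_pow_of_le_one (by norm_num) (by norm_num) (le_max_left _ _)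
            _ < ε := hn₀
        simp only at h1 h2 h3 h4
        rw [add_div] at h2 h4
        rw [Metric.mem_ball, Real.dist_eq, abs_lt]
        constructor <;> linarith
      · show L.1 < n
        omega
    have hmem := Nat.find_spec hex
    set n := Nat.find hex with hn
    set L' : ℕ × ℕ := (n, idx n y) with hL'
    have hyL' : y ∈ D L' := mem_D_idx hy0 n
    have hmax : ∀ L'' ∈ A, D L' ⊆ D L'' → L'' = L' := by
      intro L'' hL'' hsub
      have hy'' : y ∈ D L'' := hsub hyL'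
      have h1 : L''.1 ≤ n := D_level hsub
      have h2 : n ≤ L''.1 := by
        apply Nat.find_min'
        have : (L''.1, idx L''.1 y) = L'' := D_inj (mem_D_idx hy0 _) hy'' rfl
        rw [this]
        exact hL''
      exact D_inj hy'' hyL' (le_antisymm h1 h2)
    by_cases hJ : ∀ J ∈ T, ¬ D L' ⊆ D J
    · exact ⟨L', Or.inl ⟨hmem, hmax, hJ⟩, hyL'⟩
    · push Not at hJ
      obtain ⟨J, hJT, hsub⟩ := hJ
      have hyJ : y ∈ D J := hsub hyL'
      have hlev : L.1 < J.1 := by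
        by_contra hcon
        push Not at hcon
        exact hL.1 J hJT (D_nested hyL hyJ hcon)
      have hJL : D J ⊆ D L := D_nested hyJ hyL hlev.le
      by_cases hin : ∃ L'' ∈ Mx, D J ⊆ D L''
      · obtain ⟨L'', h1, h2⟩ := hin
        exact ⟨L'', Or.inl h1, h2 hyJ⟩
      · push Not at hin
        exact ⟨J, Or.inr ⟨hJT, hJL, hin⟩, hyJ⟩
  have h1 := hF L hL1 (Mx ∪ T') hcover
  -- weights
  have hMw : ∀ L' ∈ Mx, wt s L' ≤ W s {J | J ∈ T ∧ D J ⊆ D L'} := by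
    intro L' hL'
    obtain ⟨⟨a1, a2, a3⟩, _, a4⟩ := hL'
    have := hno L' a1 a2 a3
    unfold Unsat at this
    rw [not_and] at this
    exact not_lt.mp (this a4)
  have hdisj : ∀ J : ℕ × ℕ, ∀ L₁ ∈ Mx, ∀ L₂ ∈ Mx, D J ⊆ D L₁ → D J ⊆ D L₂ → L₁ = L₂ := by
    intro J L₁ h₁ L₂ h₂ s₁ s₂
    have x₁ := s₁ (D_nonempty J)
    have x₂ := s₂ (D_nonempty J)
    rcases le_total L₁.1 L₂.1 with h | h
    · exact h₂.2.1 L₁ h₁.1 (D_nested x₂ x₁ h)
    · exact (h₁.2.1 L₂ h₂.1 (D_nested x₁ x₂ h)).symm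
  have h2 : W s Mx ≤ W s {J | J ∈ T ∧ D J ⊆ D L ∧ ∃ L' ∈ Mx, D J ⊆ D L'} := by
    calc W s Mx ≤ ∑' L', ∑' J, ({x : (ℕ × ℕ) × (ℕ × ℕ) | x.1 ∈ Mx ∧ x.2 ∈ T ∧ D x.2 ⊆ D x.1}).indicator
            (fun x => wt s x.2) (L', J) := by
          unfold W
          apply ENNReal.tsum_le_tsum
          intro L'
          by_cases hL' : L' ∈ Mx
          · rw [Set.indicator_of_mem hL']
            refine (hMw L' hL').trans (le_of_eq ?_)
            unfold W
            apply tsum_congr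
            intro J
            by_cases hc : J ∈ T ∧ D J ⊆ D L'
            · rw [Set.indicator_of_mem (show J ∈ {J | J ∈ T ∧ D J ⊆ D L'} from hc),
                Set.indicator_of_mem (show (L', J) ∈ {x : (ℕ × ℕ) × (ℕ × ℕ) | x.1 ∈ Mx ∧ x.2 ∈ T ∧ D x.2 ⊆ D x.1} from ⟨hL', hc⟩)]
            · rw [Set.indicator_of_notMem (show J ∉ {J | J ∈ T ∧ D J ⊆ D L'} from hc),
                Set.indicator_of_notMem (show (L', J) ∉ {x : (ℕ × ℕ) × (ℕ × ℕ) | x.1 ∈ Mx ∧ x.2 ∈ T ∧ D x.2 ⊆ D x.1} from fun h => hc h.2)]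
          · rw [Set.indicator_of_notMem hL']
            exact zero_le
      _ = ∑' J, ∑' L', ({x : (ℕ × ℕ) × (ℕ × ℕ) | x.1 ∈ Mx ∧ x.2 ∈ T ∧ D x.2 ⊆ D x.1}).indicator
            (fun x => wt s x.2) (L', J) := ENNReal.tsum_comm
      _ ≤ _ := by
          unfold W
          apply ENNReal.tsum_le_tsum
          intro J
          by_cases hc : ∃ L' ∈ Mx, J ∈ T ∧ D J ⊆ D L'
          · obtain ⟨L', hL', hJT, hJL'⟩ := hc
            rw [tsum_eq_single L']
            · rw [Set.indicator_of_mem (show (L', J) ∈ {x : (ℕ × ℕ) × (ℕ × ℕ) | x.1 ∈ Mx ∧ x.2 ∈ T ∧ D x.2 ⊆ D x.1} from ⟨hL', hJT, hJL'⟩),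
                Set.indicator_of_mem (show J ∈ {J | J ∈ T ∧ D J ⊆ D L ∧ ∃ L' ∈ Mx, D J ⊆ D L'} from
                  ⟨hJT, hJL'.trans hL'.1.1, L', hL', hJL'⟩)]
            · intro L'' hne
              rw [Set.indicator_of_notMem]
              rintro ⟨a1, a2, a3⟩
              exact hne (hdisj J L'' a1 L' hL' a3 hJL')
          · have : ∑' L', ({x : (ℕ × ℕ) × (ℕ × ℕ) | x.1 ∈ Mx ∧ x.2 ∈ T ∧ D x.2 ⊆ D x.1}).indicator
                (fun x => wt s x.2) (L', J) = 0 := by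
              rw [ENNReal.tsum_eq_zero]
              intro L'
              rw [Set.indicator_of_notMem]
              rintro ⟨a1, a2, a3⟩
              exact hc ⟨L', a1, a2, a3⟩
            rw [this]
            exact zero_le
  have h3 : W s (Mx ∪ T') ≤ W s Mx + W s T' := W_union _ _
  have h4 : W s {J | J ∈ T ∧ D J ⊆ D L ∧ ∃ L' ∈ Mx, D J ⊆ D L'} + W s T' ≤ W s {J | J ∈ T ∧ D J ⊆ D L} := by
    apply W_disj
    · exact fun J hJ => ⟨hJ.1, hJ.2.1⟩
    · exact fun J hJ => ⟨hJ.1, hJ.2.1⟩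
    · intro J hJ hJ'
      obtain ⟨L', hL', hsub⟩ := hJ.2.2
      exact hJ'.2.2 L' hL' hsub
  have h5 : wt s L ≤ W s {J | J ∈ T ∧ D J ⊆ D L} :=
    h1.trans (h3.trans ((add_le_add_left h2 _).trans h4))
  exact absurd h5 (not_le.mpr hL.2)

/-- the nested sequence produces a point of the intersection avoiding the family `T` -/
theorem game {s : ℝ} {T : Set (ℕ × ℕ)} (U : ℕ → Set ℝ) (hU : ∀ n, IsOpen (U n)) (hF : ∀ n, Full s (U n))
    (hT : W s T < 1) : ∃ x ∈ Icc (0:ℝ) 1, (∀ n, x ∈ U n) ∧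
      ∀ m : ℕ, ∃ L : ℕ × ℕ, m ≤ L.1 ∧ x ∈ Dc L ∧ D L ⊆ Ico 0 1 ∧ ∀ J ∈ T, ¬ D L ⊆ D J := by
  classical
  have h00 : D (0, 0) = Ico 0 1 := by
    unfold D
    norm_num
  have hw0 : wt s (0, 0) = 1 := by
    unfold wt
    norm_num
  have hinit : Unsat s T (0, 0) := by
    refine ⟨fun J hJ hsub => ?_, ?_⟩
    · have h1 : J.1 = 0 := Nat.le_zero.mp (D_level hsub)
      have h2 : wt s J = 1 := by
        unfold wt
        rw [h1]
        norm_num
      have h3 : wt s J ≤ W s T := by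
        unfold W
        refine le_trans (le_of_eq ?_) (ENNReal.le_tsum J)
        rw [Set.indicator_of_mem hJ]
      rw [h2] at h3
      exact absurd h3 (not_le.mpr hT)
    · rw [hw0]
      exact (W_mono (fun J hJ => hJ.1)).trans_lt hT
  -- choose the sequence
  have hstep : ∀ (n : ℕ) (L : {L : ℕ × ℕ // Unsat s T L ∧ D L ⊆ Ico 0 1}),
      ∃ L' : {L : ℕ × ℕ // Unsat s T L ∧ D L ⊆ Ico 0 1}, D L'.1 ⊆ D L.1 ∧ Dc L'.1 ⊆ U n ∧ L.1.1 < L'.1.1 := by
    intro n L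
    obtain ⟨L', h1, h2, h3, h4⟩ := game_step (hU n) (hF n) L.2.1 L.2.2
    exact ⟨⟨L', h4, h1.trans L.2.2⟩, h1, h2, h3⟩
  choose g hg1 hg2 hg3 using hstep
  let Ls : ℕ → {L : ℕ × ℕ // Unsat s T L ∧ D L ⊆ Ico 0 1} :=
    fun n => Nat.rec ⟨(0, 0), hinit, h00.le⟩ (fun n L => g n L) n
  have hLs : ∀ n, Ls (n+1) = g n (Ls n) := fun n => rfl
  have hlev : ∀ n, n ≤ (Ls n).1.1 := by
    intro n
    induction n with
    | zero => exact Nat.zero_le _
    | succ n ih =>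
      have := hg3 n (Ls n)
      rw [hLs]
      omega
  have hDc : ∀ p q : ℕ × ℕ, D p ⊆ D q → Dc p ⊆ Dc q := by
    intro p q h
    have e : ∀ p : ℕ × ℕ, closure (D p) = Dc p := by
      intro p
      unfold D Dc
      apply closure_Ico
      have : (p.2:ℝ) / 2^p.1 < ((p.2:ℝ)+1) / 2^p.1 := by
        apply div_lt_div_of_pos_right _ (by positivity)
        linarith
      exact this.ne
    rw [← e, ← e]
    exact closure_mono h
  have hne : (⋂ n, Dc (Ls n).1).Nonempty := by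
    apply IsCompact.nonempty_iInter_of_sequence_nonempty_isCompact_isClosed
    · intro n
      rw [hLs]
      exact hDc _ _ (hg1 n (Ls n))
    · intro n
      refine ⟨((Ls n).1.2:ℝ) / 2^(Ls n).1.1, le_rfl, ?_⟩
      apply div_le_div_of_nonneg_right _ (by positivity)
      linarith
    · exact isCompact_Icc
    · intro n
      exact isClosed_Icc
  obtain ⟨x, hx⟩ := hne
  rw [mem_iInter] at hx
  refine ⟨x, ?_, ?_, ?_⟩
  · have := hx 0
    unfold Dc at this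
    have e : (Ls 0).1 = (0, 0) := rfl
    rw [e] at this
    simpa using this
  · intro n
    have := hx (n+1)
    rw [hLs] at this
    exact hg2 n (Ls n) this
  · intro m
    exact ⟨(Ls m).1, hlev m, hx m, (Ls m).2.2, (Ls m).2.1.1⟩

end Pool.Agent.R331.MT
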